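import Pool.Agent.H5.RPG.Stmts

set_option autoImplicit false

namespace Pool.RPG

open Pool.PG

theorem cmb_evb (m : ℕ) : evb m = decide (Even m) := by
  induction m with
  | zero => simp [evb]
  | succ m ih =>
    have h1 : evb (m + 1) = !(evb m) := rfl
    rw [h1, ih]
    by_cases h : Even m
    · simp [h, Nat.even_add_one]
    · simp [h, Nat.even_add_one]

theorem cmb_phi (g : Game) (m : ℕ) : decide (Even (phi g m)) = decide (Even m) := by
  have h : Even (phi g m) ↔ Even m := by
    unfold phi
    rw [Nat.even_iff, Nat.even_iff]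
    omega
  simp only [h]

theorem cmb_vx {n d : ℕ} (o : Fin n → Bool) (p : Fin n → ℕ) (s : Fin n → Fin d → Fin n)
    (v : Fin n) : vx (cmp (arena o p s)) v =
      ((o v, phi (arena o p s) (p v)), List.ofFn fun j => (s v j : ℕ)) := by
  have hlen : (arena o p s).length = n := by unfold arena; simp
  have h1 : (v : ℕ) < (cmp (arena o p s)).length := by
    unfold PG.cmp; rw [List.length_map, hlen]; exact v.2
  unfold vx
  rw [List.getD_eq_getElem _ _ h1]
  unfold PG.cmp
  rw [List.getElem_map]
  have h2 : (arena o p s)[(v : ℕ)]'(by rw [hlen]; exact v.2) =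
      ((o v, p v), List.ofFn fun j => (s v j : ℕ)) := by
    unfold arena
    rw [List.getElem_ofFn]
  rw [h2, hlen]
  refine Prod.ext rfl ?_
  show (List.ofFn fun j => (s v j : ℕ)).map (fun w => min w n) = List.ofFn fun j => (s v j : ℕ)
  rw [List.map_ofFn]
  congr 1
  funext j
  exact min_eq_left (s v j).2.le

theorem cmb_thm (h1 : BRIStmt) : CMBStmt := by
  intro n d o p s hn
  refine h1 n d (cmp (arena o p s)) o (fun v => decide (Even (p v))) s hn ?_ ?_
  · unfold PG.cmp arena; simp
  · intro v
    refine ⟨?_, ?_, ?_⟩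
    · unfold own; rw [cmb_vx]
    · unfold pri; rw [cmb_vx, cmb_evb, cmb_phi]
    · unfold suc; rw [cmb_vx]

end Pool.RPG
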