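import Pool.Agent.H5.RPG.Stmts

set_option autoImplicit false

namespace Pool.RPG

theorem rlc_ks {V ι : Type} (i : Bool) (o e : V → Bool) {s s' : V → ι → V} {W : Set V}
    (h : ∀ v, v ∉ W → s v = s' v) : KS i o e s W ⊆ KS i o e s' W := by
  rintro v ⟨S, hv, hS⟩
  refine ⟨S, hv, fun u hu => ?_⟩
  obtain ⟨h1, h2, h3, j, hj⟩ := hS u hu
  exact ⟨h1, h2, h3, j, by rw [← h u h1]; exact hj⟩

theorem rlc_pre {V ι : Type} (i : Bool) (o : V → Bool) {s s' : V → ι → V} {u : V}
    (h : s u = s' u) (T : Set V) (hP : Pre i o s T u) : Pre i o s' T u := by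
  unfold Pre at hP ⊢
  rw [← h]
  exact hP

theorem rlc_rs {V ι : Type} (i : Bool) (o e : V → Bool) {s s' : V → ι → V} {W : Set V}
    (h : ∀ v, v ∉ W → s v = s' v) : RS i o e s W ⊆ RS i o e s' W := by
  intro v hv T hT1 hT2
  refine hv T ((rlc_ks i o e h).trans hT1) fun u hu hP => hT2 u hu ?_
  exact rlc_pre i o (h u hu) T hP

theorem rlc_thm : RLCStmt := by
  intro V ι i o e s s' W h
  exact Set.Subset.antisymm (rlc_rs i o e h) (rlc_rs i o e fun v hv => (h v hv).symm)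

end Pool.RPG
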